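import Pool.Agent.helper62.LL.SpecE

/-! # MP_07c750, project LL, row LEV -/

set_option autoImplicit false

open scoped Topology
open MeasureTheory Filter Set

namespace Pool.Agent.LL

theorem LEV_le {X : Type} [mX : MeasurableSpace X] {S : X → X} (hS : Measurable S) {p : ℕ} {P : X → Fin p}
    (hP : Measurable P) (n : ℕ) : past S P n ≤ mX := by
  refine iSup_le fun j => ?_
  exact (hP.comp (hS.iterate _)).comap_le

theorem LEV_leI {X : Type} [mX : MeasurableSpace X] {S : X → X} (hS : Measurable S) {p : ℕ} {P : X → Fin p}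
    (hP : Measurable P) : pastI S P ≤ mX := by
  refine iSup_le fun j => ?_
  exact (hP.comp (hS.iterate _)).comap_le

theorem LEV_mono {X : Type} (S : X → X) {p : ℕ} (P : X → Fin p) {m n : ℕ} (hmn : m ≤ n) :
    past S P m ≤ past S P n := by
  refine iSup_le fun j => ?_
  exact le_iSup (fun j : Fin n => MeasurableSpace.comap (fun x => P (S^[(j : ℕ) + 1] x)) ⊤)
    ⟨(j : ℕ), lt_of_lt_of_le j.2 hmn⟩

theorem LEV_sup {X : Type} (S : X → X) {p : ℕ} (P : X → Fin p) : ⨆ n, past S P n = pastI S P := by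
  refine le_antisymm (iSup_le fun n => iSup_le fun j => ?_) (iSup_le fun j => ?_)
  · exact le_iSup (fun j : ℕ => MeasurableSpace.comap (fun x => P (S^[j + 1] x)) ⊤) (j : ℕ)
  · refine le_iSup_of_le (j + 1) ?_
    exact le_iSup (fun i : Fin (j + 1) => MeasurableSpace.comap (fun x => P (S^[(i : ℕ) + 1] x)) ⊤)
      ⟨j, Nat.lt_succ_self j⟩

theorem LEV_cp {X : Type} (m : MeasurableSpace X) [mX : MeasurableSpace X] (hm : m ≤ mX) (μ : Measure X)
    [IsProbabilityMeasure μ] {p : ℕ} {P : X → Fin p} (hP : Measurable P) (i : Fin p) :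
    ∀ᵐ x ∂μ, 0 ≤ cp m μ P i x ∧ cp m μ P i x ≤ 1 := by
  have hset : MeasurableSet (P ⁻¹' {i}) := hP (measurableSet_singleton i)
  have hint : Integrable ((P ⁻¹' {i}).indicator (fun _ => (1 : ℝ))) μ :=
    (integrable_const (1 : ℝ)).indicator hset
  have h1 : 0 ≤ᵐ[μ] μ[(P ⁻¹' {i}).indicator (fun _ => (1 : ℝ)) | m] := by
    refine condExp_nonneg (Eventually.of_forall fun x => ?_)
    exact Set.indicator_nonneg (fun _ _ => zero_le_one) x
  have h2 : μ[(P ⁻¹' {i}).indicator (fun _ => (1 : ℝ)) | m] ≤ᵐ[μ] μ[fun _ => (1 : ℝ) | m] := by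
    refine condExp_mono hint (integrable_const (1 : ℝ)) (Eventually.of_forall fun x => ?_)
    exact Set.indicator_le_self' (fun _ _ => zero_le_one) x
  rw [condExp_const hm (1 : ℝ)] at h2
  filter_upwards [h1, h2] with x e1 e2
  exact ⟨e1, e2⟩

theorem LEV_bound {x : ℝ} (h0 : 0 ≤ x) (h1 : x ≤ 1) : |Real.negMulLog x| ≤ 1 := by
  rw [abs_of_nonneg (Real.negMulLog_nonneg h0 h1)]
  rcases h0.eq_or_lt with h | h
  · rw [← h]
    simp
  · have h2 := Real.one_sub_inv_le_log_of_pos h
    have h3 : x * (1 - x⁻¹) ≤ x * Real.log x := mul_le_mul_of_nonneg_left h2 h0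
    have h4 : x * (1 - x⁻¹) = x - 1 := by
      rw [mul_sub, mul_inv_cancel₀ h.ne', mul_one]
    unfold Real.negMulLog
    linarith

theorem LEV_tendsto {X : Type} [mX : MeasurableSpace X] (μ : Measure X) [IsProbabilityMeasure μ] {S : X → X}
    (hS : Measurable S) {p : ℕ} {P : X → Fin p} (hP : Measurable P) :
    Tendsto (fun n => ∫ x, ∑ i, Real.negMulLog (cp (past S P n) μ P i x) ∂μ) atTop
      (𝓝 (∫ x, ∑ i, Real.negMulLog (cp (pastI S P) μ P i x) ∂μ)) := by
  let F : Filtration ℕ mX :=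
    { seq := fun n => past S P n
      mono' := fun m n hmn => LEV_mono S P hmn
      le' := fun n => LEV_le hS hP n }
  have hF : ⨆ n, F n = pastI S P := LEV_sup S P
  have hcp : ∀ i, ∀ᵐ x ∂μ, Tendsto (fun n => cp (past S P n) μ P i x) atTop (𝓝 (cp (pastI S P) μ P i x)) := by
    intro i
    have h := tendsto_ae_condExp (μ := μ) (ℱ := F) ((P ⁻¹' {i}).indicator (fun _ => (1 : ℝ)))
    rw [hF] at h
    exact h
  refine tendsto_integral_of_dominated_convergence (fun _ => (p : ℝ)) ?_ (integrable_const _) ?_ ?_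
  · intro n
    have hm : ∀ i, Measurable (cp (past S P n) μ P i) := fun i =>
      (stronglyMeasurable_condExp.mono (LEV_le hS hP n)).measurable
    exact (Finset.measurable_sum _ fun i _ => Real.continuous_negMulLog.measurable.comp (hm i)).aestronglyMeasurable
  · intro n
    have h01 : ∀ᵐ x ∂μ, ∀ i, 0 ≤ cp (past S P n) μ P i x ∧ cp (past S P n) μ P i x ≤ 1 :=
      ae_all_iff.2 fun i => LEV_cp _ (LEV_le hS hP n) μ hP i
    filter_upwards [h01] with x hx
    rw [Real.norm_eq_abs]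
    refine (Finset.abs_sum_le_sum_abs _ _).trans ?_
    calc ∑ i, |Real.negMulLog (cp (past S P n) μ P i x)| ≤ ∑ _i : Fin p, (1 : ℝ) :=
          Finset.sum_le_sum fun i _ => LEV_bound (hx i).1 (hx i).2
      _ = (p : ℝ) := by simp
  · have hall : ∀ᵐ x ∂μ, ∀ i, Tendsto (fun n => cp (past S P n) μ P i x) atTop (𝓝 (cp (pastI S P) μ P i x)) :=
      ae_all_iff.2 hcp
    filter_upwards [hall] with x hx
    exact tendsto_finsetSum _ fun i _ => (Real.continuous_negMulLog.tendsto _).comp (hx i)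

/-- Row LEV. -/
theorem LEV_proof (h1 : CHN_stmt) : LEV_stmt := by
  intro X mX μ T S p P hμ hSys hP
  have hS : Measurable S := hSys.ms.measurable
  have hlim := LEV_tendsto μ hS hP
  have hsum : ∀ n, EN.Hn μ T P n = ∑ k ∈ Finset.range n,
      ∫ x, ∑ i, Real.negMulLog (cp (past S P k) μ P i x) ∂μ := by
    intro n
    induction n with
    | zero =>
      rw [Finset.sum_range_zero]
      unfold EN.Hn
      rw [Fintype.sum_eq_zero]
      intro w
      have e : {x : X | ∀ i : Fin 0, P (T^[(i : ℕ)] x) = w i} = Set.univ := by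
        ext x
        simp
      rw [e]
      simp
    | succ n ih =>
      rw [h1 X μ T S p P n hμ hSys hP, ih, Finset.sum_range_succ]
  have hces := (tendsto_add_atTop_iff_nat 1).2 hlim.cesaro
  have hHn : Tendsto (fun n : ℕ => EN.Hn μ T P (n + 1) / ((n : ℝ) + 1)) atTop
      (𝓝 (∫ x, ∑ i, Real.negMulLog (cp (pastI S P) μ P i x) ∂μ)) := by
    refine hces.congr fun n => ?_
    rw [hsum (n + 1)]
    push_cast
    rw [div_eq_inv_mul]
  have hE : Tendsto (fun n : ℕ => ((EN.Hn μ T P (n + 1) / ((n : ℝ) + 1) : ℝ) : EReal)) atTop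
      (𝓝 ((∫ x, ∑ i, Real.negMulLog (cp (pastI S P) μ P i x) ∂μ : ℝ) : EReal)) :=
    (continuous_coe_real_ereal.tendsto _).comp hHn
  exact ge_of_tendsto hE (Eventually.of_forall fun n => iInf_le _ n)

end Pool.Agent.LL
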